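import Pool.Agent.H740R3.BQStmts

set_option autoImplicit false
set_option maxHeartbeats 4000000
set_option synthInstance.maxHeartbeats 400000

/-!
Project H740-BQ, task T1c: the limit matrix `K_∞` is invertible.
-/

namespace Pool.Agent.H298R3.BQ

open Pool.Agent.H740R3.BQ Finset

/-- the polynomial with coefficients `u j`, `j < q` -/
noncomputable def pol (q : ℕ) (u : ℕ → ℂ) : Polynomial ℂ :=
  ∑ j ∈ range q, Polynomial.C (u j) * Polynomial.X ^ j

theorem pol_coeff (q : ℕ) (u : ℕ → ℂ) (i : ℕ) : (pol q u).coeff i = if i < q then u i else 0 := by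
  unfold pol
  rw [Polynomial.finsetSum_coeff]
  simp only [Polynomial.coeff_C_mul_X_pow]
  by_cases h : i < q
  · rw [if_pos h, Finset.sum_eq_single i]
    · simp
    · intro b _ hb
      rw [if_neg (Ne.symm hb)]
    · intro hi
      exact absurd (Finset.mem_range.mpr h) hi
  · rw [if_neg h]
    apply Finset.sum_eq_zero
    intro j hj
    rw [Finset.mem_range] at hj
    rw [if_neg (by omega)]

theorem pol_degree (q : ℕ) (u : ℕ → ℂ) : (pol q u).degree < q := by
  rw [Polynomial.degree_lt_iff_coeff_zero]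
  intro m hm
  rw [pol_coeff, if_neg (by omega)]

theorem pol_coe (q : ℕ) (u : ℕ → ℂ) : ((pol q u : Polynomial ℂ) : PowerSeries ℂ) =
    ∑ j ∈ range q, PowerSeries.C (u j) * (PowerSeries.X : PowerSeries ℂ) ^ j := by
  have h : Polynomial.coeToPowerSeries.ringHom (pol q u) =
      ∑ j ∈ range q, PowerSeries.C (u j) * (PowerSeries.X : PowerSeries ℂ) ^ j := by
    unfold pol
    rw [map_sum]
    apply Finset.sum_congr rfl
    intro j _
    simp
  exact h

theorem coeff_pol_mul (q : ℕ) (u : ℕ → ℂ) (g : PowerSeries ℂ) (i : ℕ) :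
    PowerSeries.coeff i (((pol q u : Polynomial ℂ) : PowerSeries ℂ) * g) =
      ∑ j ∈ range q, (if j ≤ i then PowerSeries.coeff (i - j) g else 0) * u j := by
  rw [pol_coe, Finset.sum_mul, map_sum]
  apply Finset.sum_congr rfl
  intro j _
  rw [mul_assoc, PowerSeries.coeff_C_mul, PowerSeries.coeff_X_pow_mul']
  split_ifs
  · ring
  · ring

/-- the power series `δ_∞` -/
theorem dinf_mk (p0 : ℂ) : PowerSeries.mk (dinf p0) = PowerSeries.exp ℂ - PowerSeries.C p0 := by
  ext k
  rw [PowerSeries.coeff_mk, map_sub, PowerSeries.coeff_exp, PowerSeries.coeff_C]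
  unfold dinf
  simp

theorem cs_coeff (δ : ℕ → ℂ) (k : ℕ) :
    cs δ k = PowerSeries.coeff k (PowerSeries.mk δ * PowerSeries.mk δ) := by
  rw [PowerSeries.coeff_mul, Finset.Nat.sum_antidiagonal_eq_sum_range_succ_mk]
  unfold cs
  apply Finset.sum_congr rfl
  intro j _
  rw [PowerSeries.coeff_mk, PowerSeries.coeff_mk]

theorem split3 (q : ℕ) (f : ℕ → ℂ) : ∑ k ∈ range (q + (q + q)), f k =
    ∑ j ∈ range q, f j + ∑ j ∈ range q, f (q + j) + ∑ j ∈ range q, f (q + (q + j)) := by
  rw [Finset.sum_range_add, Finset.sum_range_add, add_assoc]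

theorem K_mulVec (d : ℕ) (δ : ℕ → ℂ) (w : ℕ → ℂ) (i : Fin (6 * d + 6)) :
    (KM d δ).mulVec (fun k : Fin (6 * d + 6) => w k) i =
      PowerSeries.coeff (i : ℕ) (((pol (2 * d + 2) w : Polynomial ℂ) : PowerSeries ℂ) +
        ((pol (2 * d + 2) (fun j => w (2 * d + 2 + j)) : Polynomial ℂ) : PowerSeries ℂ) *
          PowerSeries.mk δ +
        ((pol (2 * d + 2) (fun j => w (4 * d + 4 + j)) : Polynomial ℂ) : PowerSeries ℂ) *
          (PowerSeries.mk δ * PowerSeries.mk δ)) := by
  set F : ℕ → ℂ := fun k => (if k < 2 * d + 2 then (if (i : ℕ) = k then 1 else 0)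
    else if k < 4 * d + 4 then
      (if k - (2 * d + 2) ≤ i then δ ((i : ℕ) - (k - (2 * d + 2))) else 0)
    else (if k - (4 * d + 4) ≤ i then cs δ ((i : ℕ) - (k - (4 * d + 4))) else 0)) with hF
  have h1 : (KM d δ).mulVec (fun k : Fin (6 * d + 6) => w k) i =
      ∑ k ∈ range (6 * d + 6), F k * w k := by
    rw [← Fin.sum_univ_eq_sum_range (fun k => F k * w k)]
    rfl
  have h2 : range (6 * d + 6) = range ((2 * d + 2) + ((2 * d + 2) + (2 * d + 2))) :=
    congrArg range (by ring)
  rw [h1, h2, split3, map_add, map_add, coeff_pol_mul, coeff_pol_mul]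
  congr 1
  · congr 1
    · rw [Polynomial.coeff_coe, pol_coeff]
      by_cases h : (i : ℕ) < 2 * d + 2
      · rw [if_pos h, Finset.sum_eq_single (i : ℕ)]
        · rw [hF]
          simp only
          rw [if_pos h]
          simp
        · intro b hb hbi
          rw [Finset.mem_range] at hb
          rw [hF]
          simp only
          rw [if_pos hb, if_neg (Ne.symm hbi), zero_mul]
        · intro hi
          exact absurd (Finset.mem_range.mpr h) hi
      · rw [if_neg h]
        apply Finset.sum_eq_zero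
        intro b hb
        rw [Finset.mem_range] at hb
        rw [hF]
        simp only
        rw [if_pos hb, if_neg (by omega), zero_mul]
    · apply Finset.sum_congr rfl
      intro j hj
      rw [Finset.mem_range] at hj
      rw [hF]
      simp only
      rw [if_neg (by omega), if_pos (by omega), PowerSeries.coeff_mk]
      have h3 : 2 * d + 2 + j - (2 * d + 2) = j := by omega
      rw [h3]
  · apply Finset.sum_congr rfl
    intro j hj
    rw [Finset.mem_range] at hj
    rw [hF]
    simp only
    rw [if_neg (by omega), if_neg (by omega), ← cs_coeff]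
    have h3 : 2 * d + 2 + (2 * d + 2 + j) - (4 * d + 4) = j := by omega
    have h4 : 2 * d + 2 + (2 * d + 2 + j) = 4 * d + 4 + j := by omega
    rw [h3, h4]

theorem t1c : T1c := by
  intro h1a d p0 hdet
  obtain ⟨v, hv, hKv⟩ := Matrix.exists_mulVec_eq_zero_iff.mpr hdet
  set w : ℕ → ℂ := fun k => if h : k < 6 * d + 6 then v ⟨k, h⟩ else 0 with hw
  have hwv : (fun k : Fin (6 * d + 6) => w k) = v := by
    funext k
    rw [hw]
    simp
  set q := 2 * d + 2 with hq
  set b : ℕ → ℂ := fun j => w (2 * d + 2 + j) with hb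
  set c : ℕ → ℂ := fun j => w (4 * d + 4 + j) with hc
  set E := PowerSeries.exp ℂ with hE
  set P : ℕ → Polynomial ℂ := fun j => pol q (if j = 0 then (fun k => w k - p0 * b k + p0 ^ 2 * c k)
    else if j = 1 then (fun k => b k - 2 * p0 * c k) else c) with hP
  have hP0 : P 0 = pol q w - Polynomial.C p0 * pol q b + Polynomial.C (p0 ^ 2) * pol q c := by
    ext i
    rw [hP]
    simp only [if_true, Polynomial.coeff_add, Polynomial.coeff_sub, Polynomial.coeff_C_mul,
      pol_coeff]
    split_ifs <;> ring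
  have hP1 : P 1 = pol q b - Polynomial.C (2 * p0) * pol q c := by
    ext i
    rw [hP]
    simp only [one_ne_zero, if_false, if_true, Polynomial.coeff_sub, Polynomial.coeff_C_mul,
      pol_coeff]
    split_ifs <;> ring
  have hP2 : P 2 = pol q c := by
    rw [hP]
    simp
  have hdeg : ∀ j, (P j).degree < q := fun j => pol_degree q _
  have hsum : ∑ j ∈ Finset.range 3, (P j : PowerSeries ℂ) * E ^ j =
      ((pol q w : Polynomial ℂ) : PowerSeries ℂ) +
        ((pol q b : Polynomial ℂ) : PowerSeries ℂ) * PowerSeries.mk (dinf p0) +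
        ((pol q c : Polynomial ℂ) : PowerSeries ℂ) *
          (PowerSeries.mk (dinf p0) * PowerSeries.mk (dinf p0)) := by
    rw [Finset.sum_range_succ, Finset.sum_range_succ, Finset.sum_range_succ, Finset.sum_range_zero,
      hP0, hP1, hP2, dinf_mk, ← hE]
    have hC : (PowerSeries.C (p0 ^ 2) : PowerSeries ℂ) = PowerSeries.C p0 ^ 2 := map_pow _ _ _
    have hC2 : (PowerSeries.C (2 * p0) : PowerSeries ℂ) = 2 * PowerSeries.C p0 := by
      rw [map_mul]
      congr 1
    rw [Polynomial.coe_add, Polynomial.coe_sub, Polynomial.coe_sub, Polynomial.coe_mul,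
      Polynomial.coe_mul, Polynomial.coe_mul, Polynomial.coe_C, Polynomial.coe_C, Polynomial.coe_C,
      hC, hC2]
    ring
  have hdvd : (PowerSeries.X : PowerSeries ℂ) ^ (3 * q) ∣
      ∑ j ∈ Finset.range 3, (P j : PowerSeries ℂ) * E ^ j := by
    rw [hsum, PowerSeries.X_pow_dvd_iff]
    intro m hm
    have hm' : m < 6 * d + 6 := by omega
    have h1 := K_mulVec d (dinf p0) w ⟨m, hm'⟩
    rw [hwv, hKv] at h1
    exact h1.symm
  have hz := h1a 3 q P hdeg hdvd
  have hz2 : pol q c = 0 := by rw [← hP2]; exact hz 2 (by norm_num)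
  have hz1 : pol q b = 0 := by
    have := hz 1 (by norm_num)
    rw [hP1, hz2, mul_zero, sub_zero] at this
    exact this
  have hz0 : pol q w = 0 := by
    have := hz 0 (by norm_num)
    rw [hP0, hz1, hz2, mul_zero, mul_zero, sub_zero, add_zero] at this
    exact this
  have hcoef : ∀ (u : ℕ → ℂ), pol q u = 0 → ∀ j, j < q → u j = 0 := by
    intro u hu j hj
    have h1 := pol_coeff q u j
    rw [hu, Polynomial.coeff_zero, if_pos hj] at h1
    exact h1.symm
  apply hv
  funext k
  rw [← hwv]
  simp only [Pi.zero_apply]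
  have hk := k.2
  by_cases h1 : (k : ℕ) < q
  · exact hcoef w hz0 k h1
  · by_cases h2 : (k : ℕ) < 4 * d + 4
    · have h3 := hcoef b hz1 (k - (2 * d + 2)) (by omega)
      rw [hb] at h3
      simp only at h3
      have h4 : 2 * d + 2 + ((k : ℕ) - (2 * d + 2)) = k := by omega
      rw [h4] at h3
      exact h3
    · have h3 := hcoef c hz2 (k - (4 * d + 4)) (by omega)
      rw [hc] at h3
      simp only at h3
      have h4 : 4 * d + 4 + ((k : ℕ) - (4 * d + 4)) = k := by omega
      rw [h4] at h3
      exact h3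

end Pool.Agent.H298R3.BQ
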